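import Mathlib
import Pool.Agent.N290.RJ.All
import Pool.Agent.N290.RL.All
import Pool.Agent.N290.RL.Fin

/-!
# Corona pairs on the unit ball of `ℂⁿ`: solutions dominated by the area integral of one function

Partial answer to Q1 of MP_ca0fc2_an (the corona problem for strictly pseudoconvex domains), for the
unit ball `B` of `ℂⁿ`, `n ≥ 2`, and *all* corona data `f, g` (two generators). With
`K(z,w) = |1 - ⟨z,w⟩|^(n-2) Δ(z,w)^(-(2n-1)/2)`, `Δ(z,w) = |1 - ⟨z,w⟩|² - (1 - |z|²)(1 - |w|²)`, there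
are holomorphic solutions `h, k` of `f h + g k = 1` with the pointwise bounds
`|h(z)|, |k(z)| ≤ C(n, δ) (1 + ∫_B a(w)² K(z, w) dV(w))` for every slowly varying majorant `a` of the
invariant gradient of `f` *alone*; the function `g` is an arbitrary bounded function. Slowly varying:
`a > 0` is `C¹` and `|a'| ≤ a / 256` in the Bergman metric. In particular the corona problem has bounded
solutions for `f` and an *arbitrary* `g` if the area integral `sup_z ∫_B a² K(z, ·) dV` is finite for a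
slowly varying majorant `a` of the gradient of `f`. The bound is quadratic in the gradient, as in
Wolff's form of the corona theorem in one variable and in the area integral of Lusin.

The idea. First a smooth function `X` with *prescribed modulus* is constructed,
`|X| = λ(f) = φ(f)² + α²` where `|f|` is small, `φ` a cut-off function, `α` comparable with `a`,
`X = 0` where `|f|` is not small, with `|∂̄X| ≤ C a²` in the invariant metric: the phase of `X` is the
sum over the dyadic radii `t_j` of `2 Im (p_j (f(t_{j+1} z) - f(t_j z)))`, `p_j = ∂_w log λ`,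
controlled by the potential `λ_j |∂̄S_j - i conj(p_j f_j')|`. Then `X / g` is a bounded function on the
whole of `B` with `∂̄(X / g) = O(a²)`, although `g` is arbitrary. With `D = |f|² + |X|²`,
`∂̄(conj X) = P ∂̄(conj f) + O(a²)`, `Ψ = (conj X - conj(f) P) / D²` and the bounded *nonlinear* recursion
(of Riccati type) `v_{k+1} = (v_k + Q_k) / (1 + conj(Q_k) v_k / A²)`,
`Q_k(z) = Ψ_{k+1}(z) conj(f(t_{k+1} z) - f(t_k z))`, which gives a bounded `v` with
`∂̄v = Ψ ∂̄(conj f) + O(a²)`, the functions `conj(f) / D - X v` and `(X / g) (conj(X) / D + f v)` are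
bounded smooth solutions whose `∂̄` is `O(a²)`. The remaining error is removed with the Bergman
projection of the ball, for which `|γ - Pγ|(z) ≤ C ∫_B |∂̄γ|_inv(w) K(z,w) dV(w)`.

Authors: helper290 (statements, recursions, assembly) and helpers 401 427 293 99 283 453 300 7 252
707 262 617 669 727 (after 250 327 558 966 914 833 40 692) and, for the kernel, the projection and the
recursion, 353 27 498 717 297 271 286 134 136 568 438 755 704 622 394 787 678 247.
-/

set_option autoImplicit false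

namespace Pool.Agent.Results.MP_ca0fc2_an.AreaIntegralOneFunction

open MeasureTheory Set Filter Topology
open scoped ENNReal

/-- The unit ball of `ℂ^n`. -/
def unitBall (n : ℕ) : Set (Fin n → ℂ) := {z | ∑ i, ‖z i‖ ^ 2 < 1}

/-- The euclidean norm on `ℂ^n`. -/
noncomputable def nrm {n : ℕ} (z : Fin n → ℂ) : ℝ := Real.sqrt (∑ i, ‖z i‖ ^ 2)

/-- The hermitian product `⟨z, w⟩` on `ℂ^n`. -/
noncomputable def herm {n : ℕ} (z w : Fin n → ℂ) : ℂ := ∑ i, z i * starRingEnd ℂ (w i)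

/-- The length of the vector `ξ` at the point `z` of the ball in the Bergman metric
(normalised to be the euclidean length at `z = 0`). -/
noncomputable def length {n : ℕ} (z ξ : Fin n → ℂ) : ℝ :=
  Real.sqrt (nrm ξ ^ 2 / (1 - nrm z ^ 2) + ‖herm ξ z‖ ^ 2 / (1 - nrm z ^ 2) ^ 2)

/-- The kernel `|1 - ⟨z,w⟩|^(n-2) / (|1 - ⟨z,w⟩|² - (1 - |z|²) (1 - |w|²))^((2n-1)/2)`. -/
noncomputable def kernel {n : ℕ} (z w : Fin n → ℂ) : ℝ :=
  ‖1 - herm z w‖ ^ (n - 2) /
    Real.sqrt (‖1 - herm z w‖ ^ 2 - (1 - nrm z ^ 2) * (1 - nrm w ^ 2)) ^ (2 * n - 1)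

/-- `f` is holomorphic on the ball and bounded by `1`. -/
def IsUnitHol {n : ℕ} (f : (Fin n → ℂ) → ℂ) : Prop :=
  DifferentiableOn ℂ f (unitBall n) ∧ ∀ z ∈ unitBall n, ‖f z‖ ≤ 1

/-- Slowly varying positive functions: `C¹` on the ball, `|a'(z) ξ| ≤ a(z) / 256` times the length of
`ξ` at `z` in the Bergman metric. -/
def SlowlyVarying {n : ℕ} (a : (Fin n → ℂ) → ℝ) : Prop :=
  ContDiffOn ℝ 1 a (unitBall n) ∧ (∀ z ∈ unitBall n, 0 < a z) ∧
    ∀ z ∈ unitBall n, ∀ ξ, |fderiv ℝ a z ξ| ≤ 1 / 256 * (a z * length z ξ)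

/-- **Every corona pair `f, g` on the ball of `ℂ^n`, `n ≥ 2`, has solutions dominated pointwise by the
area integral of any slowly varying majorant of the invariant gradient of `f`** (`g` is arbitrary). -/
theorem result (n : ℕ) (hn : 2 ≤ n) (δ : ℝ) (hδ : 0 < δ) :
    ∃ C : ℝ, 0 < C ∧ ∀ f g : (Fin n → ℂ) → ℂ, IsUnitHol f → IsUnitHol g →
      (∀ z ∈ unitBall n, δ ≤ ‖f z‖ + ‖g z‖) → ∀ a : (Fin n → ℂ) → ℝ, SlowlyVarying a →
      (∀ z ∈ unitBall n, ∀ ξ, ‖fderiv ℂ f z ξ‖ ≤ a z * length z ξ) →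
      ∃ h k : (Fin n → ℂ) → ℂ, DifferentiableOn ℂ h (unitBall n) ∧
        DifferentiableOn ℂ k (unitBall n) ∧ ∀ z ∈ unitBall n,
        f z * h z + g z * k z = 1 ∧
        ENNReal.ofReal ‖h z‖ ≤ ENNReal.ofReal C *
          (1 + ∫⁻ w in unitBall n, ENNReal.ofReal (a w ^ 2 * kernel z w)) ∧
        ENNReal.ofReal ‖k z‖ ≤ ENNReal.ofReal C *
          (1 + ∫⁻ w in unitBall n, ENNReal.ofReal (a w ^ 2 * kernel z w)) := by
  obtain ⟨d, rfl⟩ : ∃ d, n = d + 1 := ⟨n - 1, by omega⟩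
  have hd : 1 ≤ d := by omega
  obtain ⟨T, h0, h1, hT⟩ := Pool.Agent.N247.RJ.T1 d
  have hmem := Pool.Agent.N290.RJ.Tr.mem_T h0 h1
  have hmem' := Pool.Agent.N290.RJ.Tr.mem_T' h0 h1
  have hlen : ∀ z ξ, length (T z) (T ξ) = Pool.Agent.N290.RJ.len z ξ :=
    Pool.Agent.N290.RJ.Tr.len_T h0 h1
  have hopen : IsOpen (unitBall (d + 1)) := Pool.Agent.N290.RJ.Tr.ball_open (d + 1)
  have hAI : Pool.Agent.N290.RL.AI d := Pool.Agent.N727.RL.AI_of d (Pool.Agent.N290.RL.c_SM d)
    (Pool.Agent.N290.RJ.a_Cmain d) (Pool.Agent.N290.RJ.C8p.C8_proof d)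
    (Pool.Agent.N622.RJ.D1_of d (Pool.Agent.N290.RJ.a_LOC d)) (Pool.Agent.N787.RJ.D4 d)
  obtain ⟨C, hC, H⟩ := Pool.Agent.N290.RL.AI2 hAI (Pool.Agent.N290.RJ.a_SP d) δ hδ
  refine ⟨C, hC, fun f g hf hg hδfg a ha hfa => ?_⟩
  have hTc : ContDiff ℝ 1 (fun z : Pool.Agent.N290.RJ.E d => T z) :=
    ((T : Pool.Agent.N290.RJ.E d →L[ℂ] (Fin (d + 1) → ℂ)).restrictScalars ℝ).contDiff
  have had : ∀ z ∈ unitBall (d + 1), DifferentiableAt ℝ a z := fun z hz =>
    (ha.1.differentiableOn (by norm_num)).differentiableAt (hopen.mem_nhds hz)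
  have h8 := Pool.Agent.N290.RJ.Tr.twoT h0 h1 (f := f) (g := g) (A := fun z =>
      ENNReal.ofReal C * (1 + ∫⁻ w in Pool.Agent.N290.RJ.B d, ENNReal.ofReal
        (a (T w) ^ 2 * Pool.Agent.N290.RJ.ker z w)))
    (H (fun z => f (T z)) (fun z => g (T z)) (fun z => a (T z))
      (Pool.Agent.N290.RJ.Tr.hol_T h0 h1 hf.1)
      (Pool.Agent.N290.RJ.Tr.hol_T h0 h1 hg.1) (fun z hz => hf.2 _ ((hmem z).2 hz))
      (fun z hz => hg.2 _ ((hmem z).2 hz)) (fun z hz => hδfg _ ((hmem z).2 hz))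
      ⟨ha.1.comp hTc.contDiffOn fun z hz => (hmem z).2 hz,
        fun z hz => ha.2.1 _ ((hmem z).2 hz), fun z hz ξ => by
          have h2 : HasFDerivAt (fun w => a (T w)) ((fderiv ℝ a (T z)).comp
              ((T : Pool.Agent.N290.RJ.E d →L[ℂ] (Fin (d + 1) → ℂ)).restrictScalars ℝ)) z :=
            (had _ ((hmem z).2 hz)).hasFDerivAt.comp z (T.hasFDerivAt.restrictScalars ℝ)
          rw [h2.fderiv, ← hlen]
          exact ha.2.2 _ ((hmem z).2 hz) (T ξ)⟩
      (fun z hz ξ => by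
        rw [Pool.Agent.N290.RJ.Tr.fd_T h0 h1 hf.1 hz, ← hlen]
        exact hfa _ ((hmem z).2 hz) (T ξ)))
  obtain ⟨h, k, hh, hk, hhk⟩ := h8
  refine ⟨h, k, hh, hk, fun z hz => ?_⟩
  have h9 := hhk z hz
  have hzB : T.symm z ∈ Pool.Agent.N290.RJ.B d := (hmem' z).2 hz
  have h10 := Pool.Agent.N290.RJ.Tr.JT h0 h1 hd hT a (fun _ => 0) hzB
  rw [T.apply_symm_apply] at h10
  have h11 : ∫⁻ w in Pool.Agent.N290.RJ.B d, ENNReal.ofReal
        (a (T w) ^ 2 * Pool.Agent.N290.RJ.ker (T.symm z) w) =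
      ∫⁻ w in unitBall (d + 1), ENNReal.ofReal (a w ^ 2 * kernel z w) := by
    have h12 : ∫⁻ w in unitBall (d + 1), ENNReal.ofReal (a w * (a w + 0) * kernel z w) =
        Pool.Agent.N290.RJ.JJ (fun w => a (T w)) (fun _ => 0) (T.symm z) := h10
    have h13 : ∀ w, a w ^ 2 * kernel z w = a w * (a w + 0) * kernel z w := fun w => by ring
    simp only [h13]
    rw [h12]
    unfold Pool.Agent.N290.RJ.JJ
    refine lintegral_congr fun w => ?_
    rw [add_zero, sq]
  rw [← h11]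
  exact h9

end Pool.Agent.Results.MP_ca0fc2_an.AreaIntegralOneFunction
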