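import Mathlib
import Pool.Agent.N290.R5.Loc

/-!
# The corona theorem on the ball of `ℂ²` for the algebra generated by all functions invariant under one-parameter groups, and one arbitrary function near each boundary point

Let `B` be the unit ball of `ℂ²` and let `𝒜` be the uniformly closed algebra generated by all bounded
holomorphic functions on `B` which are invariant under some nontrivial one-parameter group of
automorphisms of `B` (elliptic, hyperbolic or parabolic); functions with different groups, infinitely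
many, are allowed together. Examples of invariant functions: `h(⟨z, a⟩)`, `h(z₁^p z₂^q)`, functions
of `z₂ / √(1 - z₁²)`, functions of `w + i y²` in Siegel coordinates, and their images under
automorphisms of `B`; `𝒜` contains the ball algebra. Corona data `f_1, …, f_N ∈ 𝒜`, together with
one arbitrary bounded holomorphic function `G`, are solvable (`one_arbitrary`). The main theorem
`result` is the local form of this: `f_1, …, f_N` are arbitrary bounded holomorphic functions without
common zeros in `B`, and near each boundary point `p` the equation is assumed to be solvable on the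
part of `B` where those `f_j` which are asymptotic to elements of `𝒜` at `p` are small; for instance
one function is bounded from below there and arbitrary otherwise.

The proof. The key is the following localisation theorem: let `F` be functions invariant under one
group, `a_1, …, a_n` *arbitrary* bounded holomorphic functions and `G` functions for which the
Bezout equation has bounded solutions on `{|F| < ε, |a| < η}`; then the equation for `F, G` has
bounded solutions on `{|a| < η'}`. It is used for one group after the other.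

* `R5.{EP1, EP2}`: in one variable, a bounded holomorphic function on `R ∩ {|a| < η}`, `R` an
  arbitrary open subset of a simply connected domain on which `a` is holomorphic and bounded by 1, is
  `k' + a u` with bounded holomorphic `k'` on `R`, `u` on `R ∩ {|a| < η}` (Carleson's contours and the
  solution operator of P. Jones).
* `R5.Xt`: hence it is a convergent power series in `a` with coefficients in `H^∞(R)` on a smaller set
  `{|a| < η'}`; so bounded holomorphic functions on the part `{|a_i| < η}` of a fibre of the group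
  action extend to the part `{|a_i| < η'}` of the domain when the functions on the fibre extend to the
  domain.
* `R5.Tay, R5.TubeA, R5.TubeB`: the extensions can be chosen measurably in the fibre (Taylor
  expansions in the base variable and translations).
* `R5.{TubeC, ModelA, Chart}`: Bezout equation over the base with such extensions, exhaustions, descent
  to the model domains and to the ball for all types of one-parameter groups (classification as in
  `BallOneParameterGroups`).
* `R5.{Iter, HB, Gel, Loc}`: induction over the groups; characters of `H^∞(B)`.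
-/

set_option autoImplicit false

namespace Pool.Agent.Results.MP_ca0fc2_an.InvariantAlgebra

open Set Filter Topology Complex

/-- The unit ball of `ℂ²`. -/
def ballC2 : Set (ℂ × ℂ) := {z | ‖z.1‖ ^ 2 + ‖z.2‖ ^ 2 < 1}

/-- `f` is holomorphic and bounded on the ball. -/
def IsHinf (f : ℂ × ℂ → ℂ) : Prop :=
  DifferentiableOn ℂ f ballC2 ∧ ∃ M : ℝ, ∀ z ∈ ballC2, ‖f z‖ ≤ M

/-- The complete holomorphic vector field `V(z) = b - ⟨z, b⟩ z + A z` of the ball, where `A` is the
skew-Hermitian matrix with rows `(i α₁, γ)` and `(-conj γ, i α₂)`. -/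
noncomputable def field (b : ℂ × ℂ) (α : ℝ × ℝ) (γ : ℂ) (z : ℂ × ℂ) : ℂ × ℂ :=
  (b.1 - (z.1 * starRingEnd ℂ b.1 + z.2 * starRingEnd ℂ b.2) * z.1 + I * α.1 * z.1 + γ * z.2,
    b.2 - (z.1 * starRingEnd ℂ b.1 + z.2 * starRingEnd ℂ b.2) * z.2
      - starRingEnd ℂ γ * z.1 + I * α.2 * z.2)

/-- `f` is bounded, holomorphic and invariant under a nontrivial one-parameter group of automorphisms
of the ball: it is killed by the generator of the group. -/
def IsInvariant (f : ℂ × ℂ → ℂ) : Prop :=
  IsHinf f ∧ ∃ (b : ℂ × ℂ) (α : ℝ × ℝ) (γ : ℂ), ¬(b = 0 ∧ α = 0 ∧ γ = 0) ∧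
    ∀ z ∈ ballC2, fderiv ℂ f z (field b α γ z) = 0

/-- `F` is in the algebra `𝒜`: it is a uniform limit on the ball of polynomials in invariant
functions (with arbitrary groups). -/
def InAlgebra (F : ℂ × ℂ → ℂ) : Prop :=
  ∀ ε : ℝ, 0 < ε → ∃ P ∈ Algebra.adjoin ℂ {f | IsInvariant f}, ∀ z ∈ ballC2, ‖F z - P z‖ ≤ ε

theorem IsInvariant.invP {f : ℂ × ℂ → ℂ} (h : IsInvariant f) :
    Pool.Agent.N290.R5.InvP ballC2 f := by
  obtain ⟨h1, b, α, γ, hne, hV⟩ := h
  refine ⟨h1, Pool.Agent.N290.RC.VX (Pool.Agent.N290.RC.Xm b.1 b.2 γ α.1 α.2),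
    (Pool.Agent.N290.R5.good_all (Pool.Agent.N290.RC.Xm_sk b.1 b.2 γ α.1 α.2)
    (Pool.Agent.N290.RC.Xm_ns (by
      rintro ⟨h1, h2, h3, h4, h5⟩
      exact hne ⟨Prod.ext h1 h2, Prod.ext h4 h5, h3⟩))).loc, fun z hz => ?_⟩
  rw [Pool.Agent.N290.RC.VX_Xm]
  exact hV z hz

theorem InAlgebra.clA {F : ℂ × ℂ → ℂ} (h : InAlgebra F) : Pool.Agent.N290.R5.ClA ballC2 F := by
  intro ε hε
  obtain ⟨P, hP, hFP⟩ := h ε hε
  exact ⟨P, Algebra.adjoin_mono (fun f hf => IsInvariant.invP hf) hP, hFP⟩

/-- **Corona theorem on the ball of `ℂ²`: all functions but one asymptotic to the algebra `𝒜` near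
each boundary point.** `f_1, …, f_N` are bounded holomorphic functions without common zeros, and for
each boundary point `p` there are: a set `S` of indices such that `f_j`, `j ∈ S`, is asymptotic at `p`
to a function `F_j ∈ 𝒜`, a neighbourhood `U` of `p`, `ε > 0` and a bounded holomorphic solution `k`
of the Bezout equation on the part of `B ∩ U` where `|f_j| < ε` for `j ∈ S` (for instance
`k_l = 1 / f_l` for one `l`, and `0` for the others, if `|f_l| + ∑_{j ∈ S} |f_j|` is bounded from
below near `p`). -/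
theorem result (N : ℕ) (f : Fin N → ℂ × ℂ → ℂ) (hf : ∀ j, IsHinf (f j))
    (hz : ∀ z ∈ ballC2, ∃ j, f j z ≠ 0)
    (hp : ∀ p : ℂ × ℂ, ‖p.1‖ ^ 2 + ‖p.2‖ ^ 2 = 1 →
      ∃ (S : Finset (Fin N)) (F k : Fin N → ℂ × ℂ → ℂ) (U : Set (ℂ × ℂ)) (ε K : ℝ),
        U ∈ 𝓝 p ∧ 0 < ε ∧
        (∀ j ∈ S, InAlgebra (F j) ∧
          Tendsto (fun z => f j z - F j z) (𝓝[ballC2] p) (𝓝 0)) ∧
        (∀ l, DifferentiableOn ℂ (k l) {z | z ∈ ballC2 ∧ z ∈ U ∧ ∀ j ∈ S, ‖f j z‖ < ε}) ∧
        ∀ z ∈ ballC2, z ∈ U → (∀ j ∈ S, ‖f j z‖ < ε) →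
          (∀ l, ‖k l z‖ ≤ K) ∧ ∑ l, f l z * k l z = 1) :
    ∃ g : Fin N → ℂ × ℂ → ℂ, (∀ j, IsHinf (g j)) ∧ ∀ z ∈ ballC2, ∑ j, f j z * g j z = 1 := by
  refine Pool.Agent.N290.R5.local_thm (f := f) hf hz fun p hp1 => ?_
  obtain ⟨S, F, k, U, ε, K, hU, hε, hS, hk, hkz⟩ := hp p hp1
  obtain ⟨ρ, hρ, hρU⟩ := Metric.mem_nhds_iff.1 hU
  have hsub : ∀ z : ℂ × ℂ, ‖z.1 - p.1‖ ^ 2 + ‖z.2 - p.2‖ ^ 2 < ρ ^ 2 → z ∈ U := by
    intro z hz
    apply hρU
    rw [Metric.mem_ball, Prod.dist_eq, dist_eq_norm, dist_eq_norm]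
    refine max_lt ?_ ?_
    · exact lt_of_pow_lt_pow_left₀ 2 hρ.le (by linarith [sq_nonneg ‖z.2 - p.2‖])
    · exact lt_of_pow_lt_pow_left₀ 2 hρ.le (by linarith [sq_nonneg ‖z.1 - p.1‖])
  refine ⟨S, F, k, ρ, ε, K, hρ, hε, fun j hj => ?_, fun l => ?_, fun z hz h1 h2 => ?_⟩
  · exact ⟨(hS j hj).1.clA.bh Pool.Agent.N290.RC.B2_open, (hS j hj).1.clA, (hS j hj).2⟩
  · exact (hk l).mono (fun z hz => ⟨hz.1, hsub z hz.2.1, hz.2.2⟩)
  · exact hkz z hz (hsub z h1) h2

/-- Functions in `𝒜` together with one arbitrary function. -/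
theorem one_arbitrary (N : ℕ) (F : Fin N → ℂ × ℂ → ℂ) (hF : ∀ j, InAlgebra (F j))
    (G : ℂ × ℂ → ℂ) (hG : IsHinf G) (δ : ℝ) (hδ : 0 < δ)
    (hc : ∀ z ∈ ballC2, δ ≤ ∑ j, ‖F j z‖ + ‖G z‖) :
    ∃ (g : Fin N → ℂ × ℂ → ℂ) (g₀ : ℂ × ℂ → ℂ), (∀ j, IsHinf (g j)) ∧ IsHinf g₀ ∧
      ∀ z ∈ ballC2, ∑ j, F j z * g j z + G z * g₀ z = 1 := by
  have hN : (0 : ℝ) < N + 1 := by positivity
  have hlow : ∀ z ∈ ballC2, (∀ i, ‖F i z‖ < δ / (2 * (N + 1))) → δ / 2 ≤ ‖G z‖ := by
    intro z hz h
    have h1 : ∑ j, ‖F j z‖ ≤ ∑ _j : Fin N, δ / (2 * (N + 1)) :=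
      Finset.sum_le_sum fun j _ => (h j).le
    rw [Finset.sum_const, Finset.card_univ, Fintype.card_fin, nsmul_eq_mul] at h1
    have h2 : (N : ℝ) * (δ / (2 * (N + 1))) ≤ δ / 2 := by
      rw [mul_div_assoc', div_le_div_iff₀ (by positivity) two_pos]
      nlinarith
    linarith [hc z hz]
  have hne : ∀ z ∈ ballC2, (∀ i, ‖F i z‖ < δ / (2 * (N + 1))) → G z ≠ 0 := by
    intro z hz h h0
    have := hlow z hz h
    rw [h0, norm_zero] at this
    linarith
  obtain ⟨g, g₀, h1, h2, h3⟩ := Pool.Agent.N290.R5.closed_thm Pool.Agent.N290.RC.B2_open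
    (F := F) (fun j => (hF j).clA.bh Pool.Agent.N290.RC.B2_open) (fun j => (hF j).clA)
    (G := fun _ : Fin 1 => G) (k := fun _ z => (G z)⁻¹) (fun _ => hG)
    (ε := δ / (2 * (N + 1))) (K := (δ / 2)⁻¹) (by positivity)
    (fun _ => (hG.1.mono (fun z hz => hz.1)).inv (fun z hz => hne z hz.1 hz.2))
    (fun _ z hz hz' => by
      rw [norm_inv]
      exact inv_anti₀ (by positivity) (hlow z hz hz'))
    (fun z hz hz' => by
      rw [Fin.sum_univ_one]
      exact mul_inv_cancel₀ (hne z hz hz'))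
  refine ⟨g, g₀ 0, h1, h2 0, fun z hz => ?_⟩
  have h4 := h3 z hz
  rw [Fin.sum_univ_one] at h4
  exact h4

end Pool.Agent.Results.MP_ca0fc2_an.InvariantAlgebra
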