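import Mathlib
import Pool.Agent.N290.RN.All
import Pool.Agent.N290.RN.Tr4

/-!
# The corona theorem on the unit ball of `ℂⁿ` for functions with vanishing area integral, functions
asymptotic to functions of one variable, and arbitrary functions

Partial answer to Q1 of MP_ca0fc2_an (the corona problem for strictly pseudoconvex domains), for the
unit ball `B` of `ℂⁿ`, `n ≥ 2`, and any number of generators. Let
`K(z,w) = |1 - ⟨z,w⟩|^(n-2) Δ(z,w)^(-(2n-1)/2)`, `Δ(z,w) = |1 - ⟨z,w⟩|² - (1 - |z|²)(1 - |w|²)`.
A bounded holomorphic function `s` on `B` is called *good* if it has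

* *vanishing area integral*: `|s'| ≤ a` in the Bergman metric for a slowly varying `a` (`C¹`,
  positive, `|a'| ≤ a / 256` in the Bergman metric) with
  `sup_z ∫_{1 - |w|² ≤ κ} a(w)² K(z, w) dV(w) → 0` as `κ → 0`, or
* *square-Dini radial derivative*: `(1 - |z|) |s'(z) z| ≤ ω (1 - |z|)` with a nondecreasing `ω` such
  that `∫₀¹ ω(t)² dt / t < ∞`.

**Theorem.** Let `F_1, …, F_M` be holomorphic on `B`, bounded by `1`, `∑ |F_j| ≥ δ > 0` on `B`. Suppose
that near each boundary point `p` the functions fall into three groups (the grouping may depend on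
`p`): functions which near `p` are uniform limits of good functions; functions which at `p` are
asymptotic to bounded holomorphic functions `u(⟨z, p⟩)` of one variable (`F_j(z) - u(⟨z, p⟩) → 0` as
`z → p` in `B`, with no restriction on the approach; `u` an arbitrary function in `H^∞` of the disc);
and *arbitrary* functions `F_l`, for which there are bounded holomorphic solutions of
`∑ F_l κ_l = 1` on the set of those points near `p` where the functions of the first two groups are
small. Then `∑ F_j g_j = 1` has bounded holomorphic solutions on `B`.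

The theorem is stated and proved for families of data `(F_{a,1}, …, F_{a,M})`, `a ∈ ι`, for which the
hypotheses hold uniformly (for each `p` separately; no uniformity in `p` is needed), with a bound of
the solutions which is the same for all members of the family. So the solutions are bounded in terms
of the data only.

If the third group consists of one function `F_k` only, the hypothesis on it is satisfied automatically
(`κ = 1 / F_k`): near each boundary point one arbitrary function is allowed, which may depend on the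
point. If it is empty, the hypothesis means that near `p` there are no points where all functions are
small, which also is automatic.

The idea. For `f = F_j` in the first group, one constructs smooth functions `X` on `B` (for the dilated
function `f(t_k z)`, uniformly in `k`) with *prescribed modulus* `|X| = λ`, `λ = φ(f)² + α²`, `φ` a
cut-off function, `α` comparable with `a`, which vanish where `|f|` is not small, with `|X| ≥ 1` where
`|f|` is very small, and whose `∂̄` is of the size `a²` in the invariant metric. The phase of `X` is the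
sum over the dyadic radii `t_j` of `2 Im (p_j (f(t_{j+1} z) - f(t_j z)))`, `p_j = ∂_w log λ`, and it
is controlled by the potential `λ_j |∂̄ S_j - i conj(p_j f_j')|`. The products `X_1 ⋯ X_N κ_l` are
bounded functions with small `∂̄`, although the `κ_l` exist only where the `f_j` are small and are
arbitrary there. The conjugates of `f_j` and of `X_j` are up to small errors (by a second
bounded recursion, of Riccati type, started near the boundary) also functions with small `∂̄`. Near a
boundary point all these functions are uniformly close to holomorphic functions, and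
`∑ |f_j|² + |X_1 ⋯ X_N|²`, which is bounded from below, is close to a combination of the data
with bounded holomorphic coefficients. This gives local solutions, with local hypotheses. The
functions of the second group are treated by localising at the points of the fibre of the maximal
ideal space over `p`, which are limits of points moving to `p` along automorphisms `φ_a` which
translate the complex geodesic through `0` and `p`: transported by `φ_a`, the function `u(⟨z, p⟩)` is
nearly constant at the boundary points orthogonal to the geodesic, where the local theorem can be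
applied because the area integral is invariant and local tails of the transported weights are
controlled by the tails at `p`; the one variable corona theorem and a Whitney localisation along the
geodesic give bounded solutions near `p`. The local solutions are glued with characters.

Authors: helper290 (statements, recursions, assembly), helpers 919 887 402 369 322 395 36 645 221 700
833 (local theorem, transport along geodesics), 526 2 164 327 385 249 285 881 123
195 18 (general weights), 293 99 283 453 300 7 252 707 262, 401 427 458 551 (after 250 558 966 914 617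
833 692 602 40 787 301 359) and, for the parts on the ball used here, 353 27 498 717 297 271 286 134
136 568 861 438 755 704 87 749 897 622 394 678 655 247 342 681, 326 601 720.
-/

set_option autoImplicit false

namespace Pool.Agent.Results.MP_ca0fc2_an.OneVariableAndArbitrary

open MeasureTheory Set Filter Topology
open scoped ENNReal

/-- The unit ball of `ℂ^n`. -/
def unitBall (n : ℕ) : Set (Fin n → ℂ) := {z | ∑ i, ‖z i‖ ^ 2 < 1}

/-- The euclidean norm on `ℂ^n`. -/
noncomputable def nrm {n : ℕ} (z : Fin n → ℂ) : ℝ := Real.sqrt (∑ i, ‖z i‖ ^ 2)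

/-- The hermitian product `⟨z, w⟩` on `ℂ^n`. -/
noncomputable def herm {n : ℕ} (z w : Fin n → ℂ) : ℂ := ∑ i, z i * starRingEnd ℂ (w i)

/-- The length of the vector `ξ` at the point `z` of the ball in the Bergman metric
(normalised to be the euclidean length at `z = 0`). -/
noncomputable def length {n : ℕ} (z ξ : Fin n → ℂ) : ℝ :=
  Real.sqrt (nrm ξ ^ 2 / (1 - nrm z ^ 2) + ‖herm ξ z‖ ^ 2 / (1 - nrm z ^ 2) ^ 2)

/-- The kernel `|1 - ⟨z,w⟩|^(n-2) / (|1 - ⟨z,w⟩|² - (1 - |z|²) (1 - |w|²))^((2n-1)/2)`. -/
noncomputable def kernel {n : ℕ} (z w : Fin n → ℂ) : ℝ :=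
  ‖1 - herm z w‖ ^ (n - 2) /
    Real.sqrt (‖1 - herm z w‖ ^ 2 - (1 - nrm z ^ 2) * (1 - nrm w ^ 2)) ^ (2 * n - 1)

/-- `f` is holomorphic on the ball and bounded by `1`. -/
def IsUnitHol {n : ℕ} (f : (Fin n → ℂ) → ℂ) : Prop :=
  DifferentiableOn ℂ f (unitBall n) ∧ ∀ z ∈ unitBall n, ‖f z‖ ≤ 1

/-- Slowly varying positive functions: `C¹` on the ball, `|a'(z) ξ| ≤ a(z) / 256` times the length of
`ξ` at `z` in the Bergman metric. -/
def SlowlyVarying {n : ℕ} (a : (Fin n → ℂ) → ℝ) : Prop :=
  ContDiffOn ℝ 1 a (unitBall n) ∧ (∀ z ∈ unitBall n, 0 < a z) ∧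
    ∀ z ∈ unitBall n, ∀ ξ, |fderiv ℝ a z ξ| ≤ 1 / 256 * (a z * length z ξ)

/-- `τ(κ) → 0` as `κ → 0+`. -/
def Vanishing (τ : ℝ → ℝ) : Prop := Tendsto τ (𝓝[>] 0) (𝓝 0)

/-- Nonnegative nondecreasing functions `ω` with `∫₀¹ ω(t)² dt / t < ∞`. -/
def SquareDiniMod (ω : ℝ → ℝ) : Prop :=
  Monotone ω ∧ (∀ t, 0 ≤ ω t) ∧ ∫⁻ t in Ioo (0 : ℝ) 1, ENNReal.ofReal (ω t ^ 2 / t) < ⊤

/-- `s` is holomorphic on the ball, bounded by `b`, and `|s'| ≤ a` in the Bergman metric for a slowly
varying `a` such that `∫_{1 - |w|² ≤ κ} a(w)² K(z, w) dV(w) ≤ τ(κ)` for all `κ > 0` and all `z` in the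
ball. -/
def AreaClass {n : ℕ} (τ : ℝ → ℝ) (b : ℝ) (s : (Fin n → ℂ) → ℂ) : Prop :=
  DifferentiableOn ℂ s (unitBall n) ∧ (∀ z ∈ unitBall n, ‖s z‖ ≤ b) ∧
    ∃ a : (Fin n → ℂ) → ℝ, SlowlyVarying a ∧
      (∀ z ∈ unitBall n, ∀ ξ, ‖fderiv ℂ s z ξ‖ ≤ a z * length z ξ) ∧
      ∀ κ : ℝ, 0 < κ → ∀ z ∈ unitBall n, ∫⁻ w in unitBall n,
        ENNReal.ofReal ((if 1 - nrm w ^ 2 ≤ κ then a w ^ 2 else 0) * kernel z w) ≤
          ENNReal.ofReal (τ κ)

/-- `s` is holomorphic on the ball, bounded by `b`, and `(1 - |z|) |s'(z) z| ≤ ω (1 - |z|)`. -/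
def RadialClass {n : ℕ} (ω : ℝ → ℝ) (b : ℝ) (s : (Fin n → ℂ) → ℂ) : Prop :=
  DifferentiableOn ℂ s (unitBall n) ∧ (∀ z ∈ unitBall n, ‖s z‖ ≤ b) ∧
    ∀ z ∈ unitBall n, (1 - nrm z) * ‖fderiv ℂ s z z‖ ≤ ω (1 - nrm z)

/-- Near the boundary point `p`, `f` is a uniform limit of good functions: for every `η > 0` there is
`s` in `AreaClass (τ η) (b η)` or in `RadialClass (ω η) (b η)` with `|f - s| ≤ η` on the part of the
ball within distance `r η` of `p`. -/
def GoodNear {n : ℕ} (τ ω : ℝ → ℝ → ℝ) (b r : ℝ → ℝ) (p : Fin n → ℂ) (f : (Fin n → ℂ) → ℂ) : Prop :=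
  ∀ η : ℝ, 0 < η → ∃ s : (Fin n → ℂ) → ℂ, (AreaClass (τ η) (b η) s ∨ RadialClass (ω η) (b η) s) ∧
    ∀ z ∈ unitBall n, nrm (z - p) < r η → ‖f z - s z‖ ≤ η

/-- `f` is asymptotic at `p` to a function `u (⟨z, p⟩)`, where `u` is holomorphic on the unit disc and
bounded by `A`: for every `η > 0`, `|f(z) - u (⟨z, p⟩)| ≤ η` on the part of the ball within distance
`r η` of `p`. -/
def OneVariableAt {n : ℕ} (A : ℝ) (r : ℝ → ℝ) (p : Fin n → ℂ) (f : (Fin n → ℂ) → ℂ) : Prop :=
  ∃ u : ℂ → ℂ, DifferentiableOn ℂ u (Metric.ball 0 1) ∧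
    (∀ w ∈ Metric.ball (0 : ℂ) 1, ‖u w‖ ≤ A) ∧ ∀ η : ℝ, 0 < η →
    ∀ z ∈ unitBall n, nrm (z - p) < r η → ‖f z - u (herm z p)‖ ≤ η

/-- On the points of the ball within distance `ε` of `p` where all `|F j|`, `j ∈ J`, are less than `ε`,
the Bezout equation for the remaining functions `F l`, `l ∉ J`, has holomorphic solutions bounded by
`A`. -/
def SolvableWhereSmall {n M : ℕ} (ε A : ℝ) (p : Fin n → ℂ) (J : Finset (Fin M))
    (F : Fin M → (Fin n → ℂ) → ℂ) : Prop :=
  ∃ k : Fin M → (Fin n → ℂ) → ℂ,
    (∀ l, DifferentiableOn ℂ (k l)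
      {z | z ∈ unitBall n ∧ nrm (z - p) < ε ∧ ∀ j ∈ J, ‖F j z‖ < ε}) ∧
    ∀ z ∈ unitBall n, nrm (z - p) < ε → (∀ j ∈ J, ‖F j z‖ < ε) →
      (∀ l, ‖k l z‖ ≤ A) ∧ ∑ l ∈ Jᶜ, F l z * k l z = 1

/-- **The corona theorem on the ball of `ℂ^n` for families of data which consist, near each boundary
point `p`, of uniform limits of functions with vanishing area integral or square-Dini radial
derivative (`J`), of functions asymptotic at `p` to functions of the one variable `⟨z, p⟩` (`J'`), and
of arbitrary functions for which the Bezout equation can be solved where the others are small.** -/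
theorem result (n : ℕ) (hn : 2 ≤ n) (M : ℕ) (δ : ℝ) (hδ : 0 < δ) (ι : Type)
    (F : ι → Fin M → (Fin n → ℂ) → ℂ) (hF : ∀ a j, IsUnitHol (F a j))
    (hlow : ∀ a, ∀ z ∈ unitBall n, δ ≤ ∑ j, ‖F a j z‖)
    (hloc : ∀ p : Fin n → ℂ, nrm p = 1 → ∃ (J J' : Finset (Fin M)) (ε A : ℝ)
      (τ ω : ℝ → ℝ → ℝ) (b r : ℝ → ℝ), 0 < ε ∧
      (∀ η : ℝ, 0 < η → Vanishing (τ η) ∧ SquareDiniMod (ω η) ∧ 0 < r η) ∧
      ∀ a, (∀ j ∈ J, GoodNear τ ω b r p (F a j)) ∧ (∀ j ∈ J', OneVariableAt A r p (F a j)) ∧
        SolvableWhereSmall ε A p (J ∪ J') (F a)) :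
    ∃ C : ℝ, ∀ a, ∃ g : Fin M → (Fin n → ℂ) → ℂ, (∀ j, DifferentiableOn ℂ (g j) (unitBall n)) ∧
      ∀ z ∈ unitBall n, (∀ j, ‖g j z‖ ≤ C) ∧ ∑ j, F a j z * g j z = 1 := by
  obtain ⟨d, rfl⟩ : ∃ d, n = d + 1 := ⟨n - 1, by omega⟩
  have hd : 1 ≤ d := by omega
  exact Pool.Agent.N290.RN.Tr4.partU hd (Pool.Agent.N290.RN.u_GPU d)
    (Pool.Agent.N290.RJ.a_SP d) (Pool.Agent.N290.RM.e_SDV d) M δ hδ ι F hF hlow hloc

end Pool.Agent.Results.MP_ca0fc2_an.OneVariableAndArbitrary
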