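import Mathlib
import Pool.Agent.N290.RC.Prod

/-!
# The corona theorem on Reinhardt domains of `ℂ²` for functions of monomials and arbitrary functions

Let `D` be a log-convex Reinhardt domain of `ℂ²` (every pseudoconvex Reinhardt domain is of this
kind, in particular the ball and every strictly pseudoconvex Reinhardt domain). We solve the Bezout
equation with bounded holomorphic functions for arbitrary bounded holomorphic functions `G l`
together with functions of a monomial, or more generally functions killed by a vector field
`a z₁ ∂₁ + b z₂ ∂₂` with real `a`, `b`, and with products of such functions for different `(a, b)`,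
as soon as the equation for the `G l` alone has a bounded solution on the set where the invariant
functions are all small. With one function `G` the last condition is the corona condition (take
`k = 1 / G`). The same is proved for tube domains over convex sets and for domains of mixed type.
The constant does not depend on the domain.

The proof: on the tube domain over the logarithmic image the invariant functions become functions of
one linear coordinate `s`, the fibres are strips whose width is not constant, and

* `Pool.Agent.N290.RC.{Ker, Rep}`: a bounded holomorphic function on a strip is the sum of functions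
  bounded and holomorphic on the two half planes and of an entire function of exponential type 1;
* `ExtT`: moving the two half planes along the tangent lines of the boundary of the convex set and
  correcting the growth of the entire part by an exponential, we get extensions from all fibres to
  the tube domain with norms bounded by an absolute constant times the norm;
* `AsmY, BaseY`: with such extensions the method of P. Jones and Carleson's contours over the base
  solve the Bezout equation;
* `Tube, Tube2`: exhaustion; `Rem, Unw`: averaging over the periods and descent to `D`;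
* `Model, Prod`: vector fields and products.
-/

set_option autoImplicit false

namespace Pool.Agent.Results.MP_ca0fc2_an.ReinhardtMonomials

open Set Complex

/-- The logarithmic chart `exp` (`κ = true`, circular variable) or the identity (`κ = false`, tube
variable). -/
noncomputable def chart (κ : Bool) (x : ℂ) : ℂ := if κ then exp x else x

/-- The coefficient of the generator of the rotations, `z ∂_z` (`κ = true`), or of the imaginary
translations, `∂_z` (`κ = false`), up to the factor `i`. -/
def gen (κ : Bool) (z : ℂ) : ℂ := if κ then z else 1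

/-- `D` is open, invariant (off the axis of a circular variable) under the rotations of the circular
variables and the imaginary translations of the tube variables, and its image under
`(log|z₁|, log|z₂|)` (with `Re z_k` instead of `log|z_k|` for a tube variable) is convex.
`κ₁ = κ₂ = true`: log-convex Reinhardt domains. `κ₁ = κ₂ = false`: tube domains over open convex
sets. -/
structure IsModel (κ₁ κ₂ : Bool) (D : Set (ℂ × ℂ)) : Prop where
  isOpen : IsOpen D
  invariant : ∀ x₁ x₂ : ℂ,
    (chart κ₁ x₁, chart κ₂ x₂) ∈ D ↔ (chart κ₁ x₁.re, chart κ₂ x₂.re) ∈ D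
  convex : Convex ℝ {x : ℝ × ℝ | (chart κ₁ x.1, chart κ₂ x.2) ∈ D}

/-- **Corona theorem with localisation for torus-invariant data and arbitrary functions.**
`F j i` is killed by the `j`-th vector field; the set `{z ∈ D | ∀ ι, ‖∏ j, F j (ι j) z‖ < ε}` is the
set where all products with one factor of each family are small; `k` is a bounded solution there of
the Bezout equation for the arbitrary functions `G l`. -/
theorem result (m M : ℕ) (N : Fin m → ℕ) (ε K : ℝ) (hε : 0 < ε) : ∃ C : ℝ,
    ∀ (κ₁ κ₂ : Bool) (D : Set (ℂ × ℂ)), IsModel κ₁ κ₂ D →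
    ∀ a b : Fin m → ℝ, (∀ j, a j ≠ 0 ∨ b j ≠ 0) →
    ∀ F : (j : Fin m) → Fin (N j) → ℂ × ℂ → ℂ,
      (∀ j i, DifferentiableOn ℂ (F j i) D) → (∀ j i, ∀ z ∈ D, ‖F j i z‖ ≤ 1) →
      (∀ j i, ∀ z ∈ D, fderiv ℂ (F j i) z (a j * gen κ₁ z.1, b j * gen κ₂ z.2) = 0) →
    ∀ G k : Fin M → ℂ × ℂ → ℂ,
      (∀ l, DifferentiableOn ℂ (G l) D) → (∀ l, ∀ z ∈ D, ‖G l z‖ ≤ 1) →
      (∀ l, DifferentiableOn ℂ (k l)
        {z | z ∈ D ∧ ∀ ι : (j : Fin m) → Fin (N j), ‖∏ j, F j (ι j) z‖ < ε}) →
      (∀ l, ∀ z ∈ D, (∀ ι : (j : Fin m) → Fin (N j), ‖∏ j, F j (ι j) z‖ < ε) → ‖k l z‖ ≤ K) →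
      (∀ z ∈ D, (∀ ι : (j : Fin m) → Fin (N j), ‖∏ j, F j (ι j) z‖ < ε) →
        ∑ l, G l z * k l z = 1) →
    ∃ (g : ((j : Fin m) → Fin (N j)) → ℂ × ℂ → ℂ) (g₀ : Fin M → ℂ × ℂ → ℂ),
      (∀ ι, DifferentiableOn ℂ (g ι) D) ∧ (∀ l, DifferentiableOn ℂ (g₀ l) D) ∧
      (∀ ι, ∀ z ∈ D, ‖g ι z‖ ≤ C) ∧ (∀ l, ∀ z ∈ D, ‖g₀ l z‖ ≤ C) ∧
      ∀ z ∈ D, ∑ ι, (∏ j, F j (ι j) z) * g ι z + ∑ l, G l z * g₀ l z = 1 := by
  classical
  choose Cf hC1 hCf using fun j =>
    Pool.Agent.N290.RC.exists_C (N j) M (ε := ε) (K := max K 0) hε (le_max_right _ _)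
  set C : ℝ := 1 + ∑ j, Cf j with hC
  have hCj : ∀ j, Cf j ≤ C := by
    intro j
    have := Finset.single_le_sum (f := Cf) (s := Finset.univ)
      (fun i _ => le_trans zero_le_one (hC1 i)) (Finset.mem_univ j)
    linarith
  have hC0 : 0 ≤ C := by
    have := Finset.sum_nonneg (s := Finset.univ) (f := Cf)
      (fun i _ => le_trans zero_le_one (hC1 i))
    linarith
  refine ⟨max (C ^ m) (m * (C * (1 + M * C) ^ m)), ?_⟩
  intro κ₁ κ₂ D hD a b hab F hF hFb hV G k hG hGb hk hkb hks
  refine Pool.Agent.N290.RC.prod_loc hC0 hF hG hGb fun j => ?_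
  have h1 := ((Pool.Agent.N290.RC.loc_of_prod (V := fun j z =>
    (a j * gen κ₁ z.1, b j * gen κ₂ z.2)) hF hFb hV hG hGb hk hkb hks j).minε).maxK
    (le_max_left K 0)
  have h2 : Pool.Agent.N290.RC.Mod κ₁ κ₂ D := ⟨hD.isOpen, fun w => hD.invariant w.1 w.2, hD.convex⟩
  have h3 : (a j) ^ 2 + (b j) ^ 2 ≠ 0 := by
    rcases hab j with h | h
    · have : 0 < (a j) ^ 2 := by positivity
      positivity
    · have : 0 < (b j) ^ 2 := by positivity
      positivity
  exact (Pool.Agent.N290.RC.model (lt_min hε one_pos) (hCf j) (le_max_right _ _)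
    (le_trans zero_le_one (hC1 j)) h2 h3 h1).mono (hCj j)

end Pool.Agent.Results.MP_ca0fc2_an.ReinhardtMonomials
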